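import Pool.Agent.Zk46.FD.Defs

/-!
# The number of the integral vectors with a given maximum norm
-/

set_option autoImplicit false

namespace Pool.Agent.Zk69.FD46

open Finset Pool.Agent.Zk46.FD

/-- the vectors `v` with `v j = x` and the other entries at most `|x|` -/
noncomputable def fib (d : ℕ) (p : Fin d × ℤ) : Finset (Fin d → ℤ) :=
  Fintype.piFinset fun i => if i = p.1 then {p.2} else Icc (-(p.2.natAbs : ℤ)) (p.2.natAbs : ℤ)

lemma card_fib (d : ℕ) (p : Fin d × ℤ) :
    (fib d p).card = (2 * p.2.natAbs + 1) ^ (d - 1) := by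
  rw [fib, Fintype.card_piFinset, ← Finset.mul_prod_erase univ _ (mem_univ p.1), if_pos rfl,
    card_singleton, one_mul]
  rw [Finset.prod_congr rfl (g := fun _ => 2 * p.2.natAbs + 1)]
  · rw [prod_const, card_erase_of_mem (mem_univ _), card_univ, Fintype.card_fin]
  · intro i hi
    rw [if_neg (ne_of_mem_erase hi), Int.card_Icc]
    omega

lemma nm_fib {d : ℕ} {p : Fin d × ℤ} {v : Fin d → ℤ} (hv : v ∈ fib d p) : nm v = p.2.natAbs := by
  rw [fib, Fintype.mem_piFinset] at hv
  have h1 : v p.1 = p.2 := by simpa using hv p.1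
  refine le_antisymm (Finset.sup_le fun i _ => ?_) ?_
  · by_cases hi : i = p.1
    · rw [hi, h1]
    · have := hv i
      rw [if_neg hi, mem_Icc] at this
      omega
  · rw [← h1]
    exact Finset.le_sup (f := fun j => (v j).natAbs) (mem_univ p.1)

theorem t_SHELL : S_SHELL := by
  classical
  intro d m hd
  have hne : Nonempty (Fin d) := ⟨⟨0, hd⟩⟩
  set S := (Fintype.piFinset fun _ : Fin d => Icc (-(m : ℤ)) m).filter (fun v => v ≠ 0) with hS
  set P : Finset (Fin d × ℤ) := univ ×ˢ ((Icc (-(m : ℤ)) m).erase 0) with hP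
  have hPc : P.card = d * (2 * m) := by
    rw [hP, card_product, card_univ, Fintype.card_fin, card_erase_of_mem (by simp), Int.card_Icc]
    congr 1
    omega
  have h1 : ∀ v ∈ S, (1 / (nm v : ℝ) ^ (d - 1)) ≤
      ∑ p ∈ P, if v ∈ fib d p then (1 / (nm v : ℝ) ^ (d - 1)) else 0 := by
    intro v hv
    rw [hS, mem_filter, Fintype.mem_piFinset] at hv
    obtain ⟨j, -, hj⟩ := Finset.exists_mem_eq_sup univ univ_nonempty (fun j => (v j).natAbs)
    have hj' : nm v = (v j).natAbs := hj
    have hvj : v j ≠ 0 := by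
      intro h0
      apply hv.2
      funext i
      have h2 : (v i).natAbs ≤ nm v := Finset.le_sup (f := fun j => (v j).natAbs) (mem_univ i)
      rw [hj', h0] at h2
      simpa using h2
    have hp : (j, v j) ∈ P := by
      rw [hP, mem_product]
      exact ⟨mem_univ _, mem_erase.2 ⟨hvj, hv.1 j⟩⟩
    have hf : v ∈ fib d (j, v j) := by
      rw [fib, Fintype.mem_piFinset]
      intro i
      by_cases hi : i = j
      · simp [hi]
      · rw [if_neg hi, mem_Icc]
        have h2 : (v i).natAbs ≤ nm v := Finset.le_sup (f := fun j => (v j).natAbs) (mem_univ i)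
        rw [hj'] at h2
        constructor
        · simp only
          omega
        · simp only
          omega
    calc (1 / (nm v : ℝ) ^ (d - 1)) = if v ∈ fib d (j, v j) then (1 / (nm v : ℝ) ^ (d - 1)) else 0 := by
          rw [if_pos hf]
      _ ≤ _ := Finset.single_le_sum (f := fun p => if v ∈ fib d p then (1 / (nm v : ℝ) ^ (d - 1)) else 0)
          (fun p _ => by split_ifs <;> positivity) hp
  have h2 : ∀ p ∈ P, (∑ v ∈ S, if v ∈ fib d p then (1 / (nm v : ℝ) ^ (d - 1)) else 0) ≤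
      (3 : ℝ) ^ (d - 1) := by
    intro p hp
    rw [hP, mem_product, mem_erase] at hp
    have hx : 1 ≤ p.2.natAbs := Int.natAbs_pos.2 hp.2.1
    have hx' : (1 : ℝ) ≤ p.2.natAbs := by exact_mod_cast hx
    rw [← Finset.sum_filter]
    have h3 : ∀ v ∈ S.filter (fun v => v ∈ fib d p), (1 / (nm v : ℝ) ^ (d - 1)) =
        1 / (p.2.natAbs : ℝ) ^ (d - 1) := by
      intro v hv
      rw [nm_fib (mem_filter.1 hv).2]
    rw [Finset.sum_congr rfl h3, sum_const, nsmul_eq_mul]
    have h4 : ((S.filter (fun v => v ∈ fib d p)).card : ℝ) ≤ (2 * (p.2.natAbs : ℝ) + 1) ^ (d - 1) := by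
      have h5 : (S.filter (fun v => v ∈ fib d p)).card ≤ (fib d p).card :=
        card_le_card fun v hv => (mem_filter.1 hv).2
      rw [card_fib] at h5
      exact_mod_cast h5
    calc ((S.filter (fun v => v ∈ fib d p)).card : ℝ) * (1 / (p.2.natAbs : ℝ) ^ (d - 1))
        ≤ (2 * (p.2.natAbs : ℝ) + 1) ^ (d - 1) * (1 / (p.2.natAbs : ℝ) ^ (d - 1)) := by gcongr
      _ ≤ (3 * (p.2.natAbs : ℝ)) ^ (d - 1) * (1 / (p.2.natAbs : ℝ) ^ (d - 1)) := by
          gcongr
          linarith
      _ = 3 ^ (d - 1) := by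
          rw [mul_pow]
          field_simp
  calc ∑ v ∈ S, (1 / (nm v : ℝ) ^ (d - 1))
      ≤ ∑ v ∈ S, ∑ p ∈ P, if v ∈ fib d p then (1 / (nm v : ℝ) ^ (d - 1)) else 0 :=
        Finset.sum_le_sum h1
    _ = ∑ p ∈ P, ∑ v ∈ S, if v ∈ fib d p then (1 / (nm v : ℝ) ^ (d - 1)) else 0 := Finset.sum_comm
    _ ≤ ∑ p ∈ P, (3 : ℝ) ^ (d - 1) := Finset.sum_le_sum h2
    _ = 2 * d * 3 ^ (d - 1) * m := by
        rw [sum_const, hPc, nsmul_eq_mul]
        push_cast
        ring

end Pool.Agent.Zk69.FD46
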